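import Pool.Agent.helper84.FS.SpecF

/-!
# fs:FRN, finitely many open sets, infinite time (helper63)
-/

open scoped MatrixGroups ContDiff Topology UpperHalfPlane ComplexConjugate
open UpperHalfPlane MeasureTheory Filter Set

set_option autoImplicit false

namespace Pool.Agent.FS

open Pool.Agent.RS
open Pool.Agent.MS (bq BB BA SF pf)
open Pool.Agent.EN (XG MG mkX mkM fl pr)

noncomputable section

/-- **Row FRN** -/
theorem FRN_proof (hFRM : FRM_stmt) : FRN_stmt := by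
  intro Γ m O hΓ hO
  obtain ⟨c, hc, h⟩ := hFRM Γ m O hΓ hO
  refine ⟨c, hc, ?_⟩
  intro μ K hμ hK hGP
  obtain ⟨A, hA⟩ : ∃ A : ℕ → Set (XG Γ), A = fun n : ℕ => {x : XG Γ | ∃ k < m, volume.real {t : ℝ | t ∈ Icc (0 : ℝ) (n : ℝ) ∧ fl Γ t x ∈ O k} ≤ c * (n : ℝ)} := ⟨_, rfl⟩
  obtain ⟨B, hB⟩ : ∃ B : ℕ → Set (XG Γ), B = fun N => {x | ∀ n, N ≤ n → x ∈ A n} := ⟨_, rfl⟩
  have hmono : Monotone B := by
    intro N N' hN x hx
    rw [hB] at hx ⊢
    exact fun n hn => hx n (hN.trans hn)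
  have hsub : {x : XG Γ | ∃ k < m, ∃ T0 : ℝ, ∀ T : ℝ, T0 ≤ T → volume.real {t : ℝ | t ∈ Icc 0 T ∧ fl Γ t x ∈ O k} ≤ c * T} ⊆ ⋃ N, B N := by
    rintro x ⟨k, hk, T0, hT0⟩
    obtain ⟨N, hN⟩ := exists_nat_ge T0
    refine mem_iUnion.mpr ⟨N, ?_⟩
    rw [hB]
    intro n hn
    rw [hA]
    refine ⟨k, hk, hT0 n (hN.trans ?_)⟩
    exact_mod_cast hn
  refine (measure_mono hsub).trans ?_
  rw [hmono.measure_iUnion]
  refine iSup_le fun N => ?_
  have h1 : ∀ e : ℝ, 0 < e → μ (B N) ≤ ENNReal.ofReal (1 / 2 + e) := by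
    intro e he
    obtain ⟨n0, hn0⟩ := h K e hK he
    refine (measure_mono (?_ : B N ⊆ A (max N n0))).trans ?_
    · intro x hx
      rw [hB] at hx
      exact hx _ (le_max_left _ _)
    · rw [hA]
      exact hn0 μ (max N n0) (le_max_right _ _) hμ hGP
  have h2 : (μ (B N)).toReal ≤ 1 / 2 := by
    refine le_of_forall_pos_le_add fun e he => ?_
    have := ENNReal.toReal_mono ENNReal.ofReal_ne_top (h1 e he)
    rwa [ENNReal.toReal_ofReal (by positivity)] at this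
  have h3 : μ (B N) = ENNReal.ofReal (μ (B N)).toReal := (ENNReal.ofReal_toReal (measure_ne_top μ _)).symm
  rw [h3]
  refine (ENNReal.ofReal_le_ofReal h2).trans (le_of_eq ?_)
  rw [ENNReal.ofReal_div_of_pos (by norm_num)]
  simp

end

end Pool.Agent.FS
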