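import Pool.Agent.helper52.FS.SpecP

/-!
# fs:SUP, summation over the cells (helper63)
-/

open MeasureTheory Set

set_option autoImplicit false

namespace Pool.Agent.FS

noncomputable section

theorem SUP_per (P : ℕ) (g : ℝ → ℝ) (hg : ∀ a b : ℝ, IntervalIntegrable g volume a b) (hp : ∀ y : ℝ, g (y + (P : ℝ)) = g y) (t : ℝ) :
    ∑ m ∈ Finset.range P, ∫ v in ((m : ℝ) + t)..((m : ℝ) + t + 1), g v = ∫ v in (0 : ℝ)..P, g v := by
  have h1 := intervalIntegral.sum_integral_adjacent_intervals (a := fun m : ℕ => (m : ℝ) + t) (n := P) (μ := volume)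
    (f := g) (fun k _ => hg _ _)
  have h2 : Function.Periodic g (P : ℝ) := hp
  have h3 := h2.intervalIntegral_add_eq 0 t
  simp only [zero_add] at h3
  rw [h3]
  have h4 : ∑ m ∈ Finset.range P, ∫ v in ((m : ℝ) + t)..((m : ℝ) + t + 1), g v = ∑ m ∈ Finset.range P, ∫ v in ((m : ℝ) + t)..(((m + 1 : ℕ) : ℝ) + t), g v := by
    refine Finset.sum_congr rfl fun m _ => ?_
    have : (m : ℝ) + t + 1 = ((m + 1 : ℕ) : ℝ) + t := by push_cast; ring
    rw [this]
  rw [h4, h1]
  have h5 : ((0 : ℕ) : ℝ) + t = t := by simp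
  simp only [h5]
  rw [add_comm (P : ℝ) t]

theorem SUP_four (n : ℕ) : ∑ j ∈ Finset.range n, (1 : ℝ) / (1 + (j : ℝ) ^ 2) ≤ 4 := by
  have h : ∑ j ∈ Finset.range n, (1 : ℝ) / (1 + (j : ℝ) ^ 2) ≤ 4 - 4 / ((n : ℝ) + 1) := by
    induction n with
    | zero => simp
    | succ n ih =>
      rw [Finset.sum_range_succ]
      have h1 : (1 : ℝ) / (1 + (n : ℝ) ^ 2) ≤ 4 / ((n : ℝ) + 1) - 4 / ((n : ℝ) + 1 + 1) := by
        rw [div_sub_div _ _ (by positivity) (by positivity), div_le_div_iff₀ (by positivity) (by positivity)]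
        nlinarith [sq_nonneg ((n : ℝ) - 1), sq_nonneg (n : ℝ)]
      push_cast
      linarith
  have : (0 : ℝ) ≤ 4 / ((n : ℝ) + 1) := by positivity
  linarith

theorem SUP_half (h : ℝ → ℝ) (hc : Continuous h) (h0 : ∀ u, 0 ≤ h u) (K : ℝ) (hK : ∀ j : ℕ, ∫ u in (j : ℝ)..((j : ℝ) + 1), h u ≤ K) (n : ℕ) :
    ∫ u in (0 : ℝ)..n, h u / (1 + u ^ 2) ≤ 4 * K := by
  have hK0 : 0 ≤ K := by
    refine le_trans ?_ (hK 0)
    exact intervalIntegral.integral_nonneg (by simp) fun u _ => h0 u
  have hc2 : Continuous fun u : ℝ => h u / (1 + u ^ 2) := hc.div (by fun_prop) fun u => by positivity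
  have h1 := intervalIntegral.sum_integral_adjacent_intervals (a := fun m : ℕ => (m : ℝ)) (n := n) (μ := volume)
    (f := fun u : ℝ => h u / (1 + u ^ 2)) (fun k _ => hc2.intervalIntegrable _ _)
  simp only [Nat.cast_zero] at h1
  rw [← h1]
  have h2 : ∀ j ∈ Finset.range n, ∫ u in ((j : ℕ) : ℝ)..((j + 1 : ℕ) : ℝ), h u / (1 + u ^ 2) ≤ 1 / (1 + (j : ℝ) ^ 2) * K := by
    intro j _
    have h3 : ∫ u in ((j : ℕ) : ℝ)..((j + 1 : ℕ) : ℝ), h u / (1 + u ^ 2) ≤ ∫ u in ((j : ℕ) : ℝ)..((j + 1 : ℕ) : ℝ), 1 / (1 + (j : ℝ) ^ 2) * h u := by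
      refine intervalIntegral.integral_mono_on (by push_cast; linarith) (hc2.intervalIntegrable _ _) ((continuous_const.mul hc).intervalIntegrable _ _) ?_
      intro u hu
      have hju : (j : ℝ) ≤ u := hu.1
      have hj0 : (0 : ℝ) ≤ j := Nat.cast_nonneg j
      rw [div_eq_mul_inv, mul_comm, ← one_div]
      refine mul_le_mul_of_nonneg_right ?_ (h0 u)
      refine one_div_le_one_div_of_le (by positivity) ?_
      nlinarith
    refine h3.trans ?_
    rw [intervalIntegral.integral_const_mul]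
    refine mul_le_mul_of_nonneg_left ?_ (by positivity)
    have := hK j
    push_cast
    exact this
  refine (Finset.sum_le_sum h2).trans ?_
  rw [← Finset.sum_mul]
  exact mul_le_mul_of_nonneg_right (SUP_four n) hK0

/-- **Row SUP** -/
theorem SUP_proof : SUP_stmt := by
  refine ⟨16, by norm_num, ?_⟩
  intro c P f E x hc0 hc1 hP hf hf0 hfp hE hEp hx
  have hfi : ∀ a b : ℝ, IntervalIntegrable f volume a b := fun a b => hf.intervalIntegrable a b
  obtain ⟨I, hI⟩ : ∃ I, I = ∫ v in (0 : ℝ)..P, f v := ⟨_, rfl⟩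
  have hP0 : (0 : ℝ) ≤ P := Nat.cast_nonneg P
  have hI0 : 0 ≤ I := by rw [hI]; exact intervalIntegral.integral_nonneg hP0 fun u _ => hf0 u
  have hIcc : ∫ y in Icc (0 : ℝ) P, f y = I := by
    rw [hI, intervalIntegral.integral_of_le hP0, integral_Icc_eq_integral_Ioc]
  have hper : ∀ t : ℝ, ∑ m ∈ Finset.range P, ∫ v in ((m : ℝ) + t)..((m : ℝ) + t + 1), f v = I := fun t => by
    rw [hI]; exact SUP_per P f hfi hfp t
  have hxm : ∀ m ∈ Finset.range P, (m : ℝ) ≤ x m ∧ x m ≤ m + 1 := fun m hm => ⟨(hx m (Finset.mem_range.mp hm)).1, (hx m (Finset.mem_range.mp hm)).2.1⟩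
  refine ⟨?_, ?_, ?_⟩
  · rw [hIcc, ← hper (-(3 / 2))]
    refine Finset.sum_le_sum fun m hm => ?_
    have h1 : ∫ v in Icc (1 / 2 : ℝ) (5 / 2), f (x m - v) = ∫ v in (x m - 5 / 2)..(x m - 1 / 2), f v := by
      rw [integral_Icc_eq_integral_Ioc, ← intervalIntegral.integral_of_le (by norm_num), intervalIntegral.integral_comp_sub_left (f := f)]
    rw [h1]
    have := hxm m hm
    refine intervalIntegral.integral_mono_interval ?_ ?_ ?_ (Filter.Eventually.of_forall fun u => hf0 u) (hfi _ _) <;> linarith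
  · rw [hIcc]
    -- the two sides
    have hplus : ∀ j : ℕ, ∫ u in (j : ℝ)..((j : ℝ) + 1), ∑ m ∈ Finset.range P, f (x m + u) ≤ 2 * I := by
      intro j
      rw [intervalIntegral.integral_finset_sum fun m _ => (by fun_prop : Continuous fun u : ℝ => f (x m + u)).intervalIntegrable _ _]
      have h1 : ∀ m ∈ Finset.range P, ∫ u in (j : ℝ)..((j : ℝ) + 1), f (x m + u) ≤
          (∫ v in ((m : ℝ) + j)..((m : ℝ) + j + 1), f v) + ∫ v in ((m : ℝ) + (j + 1))..((m : ℝ) + (j + 1) + 1), f v := by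
        intro m hm
        have h2 := hxm m hm
        have h3 : (m : ℝ) + j + 1 = (m : ℝ) + (j + 1) := by ring
        rw [h3, intervalIntegral.integral_add_adjacent_intervals (hfi _ _) (hfi _ _), intervalIntegral.integral_comp_add_left (f := f)]
        refine intervalIntegral.integral_mono_interval ?_ ?_ ?_ (Filter.Eventually.of_forall fun u => hf0 u) (hfi _ _) <;> linarith
      refine (Finset.sum_le_sum h1).trans ?_
      rw [Finset.sum_add_distrib, hper, hper]
      linarith
    have hminus : ∀ j : ℕ, ∫ u in (j : ℝ)..((j : ℝ) + 1), ∑ m ∈ Finset.range P, f (x m - u) ≤ 2 * I := by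
      intro j
      rw [intervalIntegral.integral_finset_sum fun m _ => (by fun_prop : Continuous fun u : ℝ => f (x m - u)).intervalIntegrable _ _]
      have h1 : ∀ m ∈ Finset.range P, ∫ u in (j : ℝ)..((j : ℝ) + 1), f (x m - u) ≤
          (∫ v in ((m : ℝ) + (-j - 1))..((m : ℝ) + (-j - 1) + 1), f v) + ∫ v in ((m : ℝ) + (-j))..((m : ℝ) + (-j) + 1), f v := by
        intro m hm
        have h2 := hxm m hm
        have h3 : (m : ℝ) + (-j - 1) + 1 = (m : ℝ) + (-j) := by ring
        rw [h3, intervalIntegral.integral_add_adjacent_intervals (hfi _ _) (hfi _ _), intervalIntegral.integral_comp_sub_left (f := f)]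
        refine intervalIntegral.integral_mono_interval ?_ ?_ ?_ (Filter.Eventually.of_forall fun u => hf0 u) (hfi _ _) <;> linarith
      refine (Finset.sum_le_sum h1).trans ?_
      rw [Finset.sum_add_distrib, hper, hper]
      linarith
    -- boundedness
    obtain ⟨M, hM⟩ : ∃ M : ℝ, ∀ y, f y ≤ M := by
      obtain ⟨M, hM⟩ := (isCompact_Icc (a := (0 : ℝ)) (b := P)).exists_bound_of_continuousOn hf.continuousOn
      refine ⟨M, fun y => ?_⟩
      have hPp : (0 : ℝ) < P := by exact_mod_cast hP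
      have h2 : Function.Periodic f (P : ℝ) := hfp
      obtain ⟨z, hz, hzy⟩ := h2.exists_mem_Ico₀ hPp y
      rw [hzy]
      exact (le_abs_self _).trans (hM z ⟨hz.1, hz.2.le⟩)
    have hint : ∀ m : ℕ, Integrable fun u : ℝ => f (x m + u) / (1 + u ^ 2) := by
      intro m
      have h1 : Integrable fun u : ℝ => M * (1 + u ^ 2)⁻¹ := integrable_inv_one_add_sq.const_mul M
      refine h1.mono' ?_ (Filter.Eventually.of_forall fun u => ?_)
      · exact ((by fun_prop : Continuous fun u : ℝ => f (x m + u)).div (by fun_prop : Continuous fun u : ℝ => 1 + u ^ 2) fun u => by positivity).aestronglyMeasurable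
      · rw [Real.norm_eq_abs, abs_of_nonneg (div_nonneg (hf0 _) (by positivity)), div_eq_mul_inv]
        exact mul_le_mul_of_nonneg_right (hM _) (by positivity)
    rw [← integral_finset_sum _ fun m _ => hint m]
    have hS : Integrable fun u : ℝ => ∑ m ∈ Finset.range P, f (x m + u) / (1 + u ^ 2) := integrable_finset_sum _ fun m _ => hint m
    have hlim := intervalIntegral_tendsto_integral hS (a := fun n : ℕ => -(n : ℝ)) (b := fun n : ℕ => (n : ℝ)) (l := Filter.atTop)
      (Filter.tendsto_neg_atTop_atBot.comp tendsto_natCast_atTop_atTop) tendsto_natCast_atTop_atTop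
    refine le_of_tendsto' hlim fun n => ?_
    have e1 : ∀ u : ℝ, ∑ m ∈ Finset.range P, f (x m + u) / (1 + u ^ 2) = (∑ m ∈ Finset.range P, f (x m + u)) / (1 + u ^ 2) := fun u => by
      rw [Finset.sum_div]
    simp only [e1]
    have hc2 : Continuous fun u : ℝ => (∑ m ∈ Finset.range P, f (x m + u)) / (1 + u ^ 2) :=
      (by fun_prop : Continuous fun u : ℝ => ∑ m ∈ Finset.range P, f (x m + u)).div (by fun_prop) fun u => by positivity
    rw [← intervalIntegral.integral_add_adjacent_intervals (b := 0) (hc2.intervalIntegrable _ _) (hc2.intervalIntegrable _ _)]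
    have h3 := SUP_half (fun u => ∑ m ∈ Finset.range P, f (x m + u)) (by fun_prop) (fun u => Finset.sum_nonneg fun m _ => hf0 _) _ hplus n
    have h4 := SUP_half (fun u => ∑ m ∈ Finset.range P, f (x m - u)) (by fun_prop) (fun u => Finset.sum_nonneg fun m _ => hf0 _) _ hminus n
    have h5 : ∫ u in (-(n : ℝ))..0, (∑ m ∈ Finset.range P, f (x m + u)) / (1 + u ^ 2) = ∫ u in (0 : ℝ)..n, (∑ m ∈ Finset.range P, f (x m - u)) / (1 + u ^ 2) := by
      have h6 := intervalIntegral.integral_comp_neg (a := 0) (b := (n : ℝ)) (fun u : ℝ => (∑ m ∈ Finset.range P, f (x m + u)) / (1 + u ^ 2))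
      rw [neg_zero] at h6
      rw [← h6]
      refine intervalIntegral.integral_congr fun u _ => ?_
      simp only [neg_sq, sub_eq_add_neg]
    rw [h5]
    linarith
  · obtain ⟨g, hg⟩ : ∃ g : ℝ → ℝ, g = E.indicator f := ⟨_, rfl⟩
    have hg0 : ∀ u, 0 ≤ g u := fun u => by rw [hg]; exact indicator_nonneg (fun y _ => hf0 y) u
    have hgi : ∀ a b : ℝ, IntervalIntegrable g volume a b := fun a b => by
      rw [hg, intervalIntegrable_iff]
      exact (intervalIntegrable_iff.mp (hfi a b)).indicator hE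
    have hgp : ∀ y : ℝ, g (y + (P : ℝ)) = g y := fun y => by
      rw [hg]
      by_cases hy : y ∈ E
      · rw [indicator_of_mem ((hEp y).mpr hy), indicator_of_mem hy, hfp]
      · rw [indicator_of_notMem (fun h => hy ((hEp y).mp h)), indicator_of_notMem hy]
    have hgper := fun t : ℝ => SUP_per P g hgi hgp t
    have hR : ∫ y in E ∩ Icc (0 : ℝ) P, f y = ∫ v in (0 : ℝ)..P, g v := by
      rw [intervalIntegral.integral_of_le hP0, ← integral_Icc_eq_integral_Ioc, hg, integral_indicator hE, Measure.restrict_restrict hE]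
    rw [hR]
    have hJ0 : 0 ≤ ∫ v in (0 : ℝ)..P, g v := intervalIntegral.integral_nonneg hP0 fun u _ => hg0 u
    have h1 : ∀ m ∈ Finset.range P, ∫ u in Icc (-c) c, f (x m + u) ≤
        ((∫ v in ((m : ℝ) + (-1))..((m : ℝ) + (-1) + 1), g v) + ∫ v in ((m : ℝ) + 0)..((m : ℝ) + 0 + 1), g v) + ∫ v in ((m : ℝ) + 1)..((m : ℝ) + 1 + 1), g v := by
      intro m hm
      have h2 := hxm m hm
      have h3 : (m : ℝ) + (-1) + 1 = (m : ℝ) + 0 := by ring
      have h4 : (m : ℝ) + 0 + 1 = (m : ℝ) + 1 := by ring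
      rw [h3, intervalIntegral.integral_add_adjacent_intervals (hgi _ _) (hgi _ _), h4, intervalIntegral.integral_add_adjacent_intervals (hgi _ _) (hgi _ _)]
      rw [integral_Icc_eq_integral_Ioc, ← intervalIntegral.integral_of_le (by linarith), intervalIntegral.integral_comp_add_left (f := f)]
      have h5 : ∫ v in (x m + -c)..(x m + c), f v = ∫ v in (x m + -c)..(x m + c), g v := by
        rw [intervalIntegral.integral_of_le (by linarith), intervalIntegral.integral_of_le (by linarith), integral_Ioc_eq_integral_Ioo, integral_Ioc_eq_integral_Ioo]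
        refine setIntegral_congr_fun measurableSet_Ioo fun u hu => ?_
        rw [hg, indicator_of_mem]
        refine (hx m (Finset.mem_range.mp hm)).2.2 ⟨?_, hu.2⟩
        have := hu.1
        linarith
      rw [h5]
      refine intervalIntegral.integral_mono_interval ?_ ?_ ?_ (Filter.Eventually.of_forall fun u => hg0 u) (hgi _ _) <;> linarith
    refine (Finset.sum_le_sum h1).trans ?_
    rw [Finset.sum_add_distrib, Finset.sum_add_distrib, hgper, hgper, hgper]
    linarith

end

end Pool.Agent.FS
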