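import Pool.Agent.helper81.FS.SpecU

/-!
# fs:U1, the Cauchy transform as a Laplace transform (helper63)
-/

set_option autoImplicit false

namespace Pool.Agent.FS

open Pool.Agent.helper81.FS MeasureTheory Set Complex

/-- Fubini -/
theorem U1_core (Q : ℝ → ℂ) (hQ : Integrable Q) (σ : ℝ) (a : ℂ) (ha : a.re < 0) (z : ℂ)
    (hz : ∀ s t : ℝ, cexp (a * t) * cexp (-(I * σ * s * t)) = cexp ((I * σ * (z - s)) * t)) (hre : ∀ s : ℝ, (I * σ * (z - s)).re < 0) :
    ∫ t in Ioi (0 : ℝ), cexp (a * t) * ∫ s : ℝ, Q s * cexp (-(I * σ * s * t)) = ∫ s : ℝ, Q s * (-1 / (I * σ * (z - s))) := by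
  have h1 : ∀ t : ℝ, cexp (a * t) * ∫ s : ℝ, Q s * cexp (-(I * σ * s * t)) = ∫ s : ℝ, cexp (a * t) * (Q s * cexp (-(I * σ * s * t))) := fun t => by
    rw [integral_const_mul]
  simp only [h1]
  rw [integral_integral_swap]
  · refine integral_congr_ae (Filter.Eventually.of_forall fun s => ?_)
    simp only
    have h2 : ∀ t : ℝ, cexp (a * t) * (Q s * cexp (-(I * σ * s * t))) = Q s * cexp ((I * σ * (z - s)) * t) := fun t => by
      rw [← hz s t]; ring
    simp only [h2]
    rw [integral_const_mul, integral_exp_mul_complex_Ioi (hre s) 0]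
    simp
  · have h3 : Integrable (fun p : ℝ × ℝ => cexp (a * p.1) * Q p.2) ((volume.restrict (Ioi (0 : ℝ))).prod volume) :=
      (integrableOn_exp_mul_complex_Ioi ha 0).mul_prod hQ
    have h4 : Continuous fun p : ℝ × ℝ => cexp (-(I * σ * p.2 * p.1)) := by fun_prop
    refine (h3.bdd_mul h4.aestronglyMeasurable (c := 1) (Filter.Eventually.of_forall fun p => ?_)).congr (Filter.Eventually.of_forall fun p => ?_)
    · have : (-(I * σ * p.2 * p.1) : ℂ) = ((-(σ * p.2 * p.1) : ℝ) : ℂ) * I := by push_cast; ring
      rw [this, Complex.norm_exp_ofReal_mul_I]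
    · simp only [Function.uncurry]
      ring

/-- **Row U1** -/
theorem U1_proof : U1_stmt := by
  intro Q q hQ hQc hft z
  have hQi : Integrable Q := hQ.integrable_of_hasCompactSupport hQc
  constructor
  · intro hz
    have h1 := U1_core Q hQi 1 (I * z) (by simpa using hz) z (fun s t => by rw [← Complex.exp_add]; congr 1; push_cast; ring)
      (fun s => by simpa using hz)
    have h2 : ∫ t in Ioi (0 : ℝ), cexp (I * t * z) * q (-t) = ∫ t in Ioi (0 : ℝ), cexp (I * z * t) * ∫ s : ℝ, Q s * cexp (-(I * (1 : ℝ) * s * t)) := by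
      refine setIntegral_congr_fun measurableSet_Ioi fun t _ => ?_
      rw [hft (-t)]
      congr 1
      · congr 1; ring
      · refine integral_congr_ae (Filter.Eventually.of_forall fun s => ?_)
        simp only
        congr 2
        push_cast; ring
    rw [h2, h1, ← integral_const_mul]
    unfold CQ
    refine integral_congr_ae (Filter.Eventually.of_forall fun s => ?_)
    simp only
    have hne : (s : ℂ) - z ≠ 0 := fun h => by
      have := congrArg Complex.im h
      simp at this
      exact hz.ne' this
    have hne2 : z - (s : ℂ) ≠ 0 := fun h => hne (by rw [← neg_sub, h, neg_zero])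
    push_cast
    field_simp
    ring_nf
  · intro hz
    have h1 := U1_core Q hQi (-1) (-(I * z)) (by simpa using hz) z (fun s t => by rw [← Complex.exp_add]; congr 1; push_cast; ring)
      (fun s => by simpa using hz)
    have h2 : ∫ t in Ioi (0 : ℝ), cexp (-(I * t * z)) * q t = ∫ t in Ioi (0 : ℝ), cexp (-(I * z) * t) * ∫ s : ℝ, Q s * cexp (-(I * ((-1 : ℝ) : ℂ) * s * t)) := by
      refine setIntegral_congr_fun measurableSet_Ioi fun t _ => ?_
      rw [hft t]
      congr 1
      · congr 1; ring
      · refine integral_congr_ae (Filter.Eventually.of_forall fun s => ?_)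
        simp only
        congr 2
        push_cast; ring
    rw [h2, h1, ← integral_const_mul]
    unfold CQ
    refine integral_congr_ae (Filter.Eventually.of_forall fun s => ?_)
    simp only
    have hne : (s : ℂ) - z ≠ 0 := fun h => by
      have := congrArg Complex.im h
      simp at this
      exact hz.ne this
    have hne2 : z - (s : ℂ) ≠ 0 := fun h => hne (by rw [← neg_sub, h, neg_zero])
    push_cast
    field_simp
    ring_nf

end Pool.Agent.FS
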